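import Pool.Agent.H.MP_5e9a16.A

set_option autoImplicit false

open Set Filter Topology TopologicalSpace

namespace Pool.Agent.Results.MP_5e9a16_gt.Yes

universe u v

theorem result (I : Type u) (H : I → Type v) [∀ i, Group (H i)] [∀ i, TopologicalSpace (H i)]
    [∀ i, IsTopologicalGroup (H i)] [∀ i, MetrizableSpace (H i)] (G : Subgroup (∀ i, H i))
    (hG : Dense (G : Set (∀ i, H i))) (B : ℕ → Set (Set G))
    (h1 : ∀ n, ∀ A ∈ B n, (interior A).Nonempty)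
    (h2 : ∀ n, ∀ U : Set G, IsOpen U → U.Nonempty → ∃ A ∈ B n, A ⊆ U)
    (h3 : ∀ A : ℕ → Set G, (∀ n, A n ∈ B n) → (∀ n, closure (A (n + 1)) ⊆ interior (A n)) →
      (⋂ n, A n).Nonempty) (j : I) : IsCompletelyMetrizableSpace (H j) := by
  have k : ∀ {D : Set (∀ i, H i)} {U : Set (H j)}, IsOpen D → IsOpen U → U.Nonempty →
      U ⊆ Function.eval j '' D → ∃ O : Set G, IsOpen O ∧ O.Nonempty ∧ O ⊆ Subtype.val ⁻¹' D ∧
        ∀ g ∈ O, g.1 j ∈ U := fun {D U} d u ⟨y, hy⟩ e => by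
    obtain ⟨z, z1, rfl⟩ := e hy
    have o := d.inter (u.preimage (continuous_apply j))
    obtain ⟨g, g1, g2⟩ := hG.inter_open_nonempty _ o ⟨z, z1, hy⟩
    exact ⟨_, o.preimage continuous_subtype_val, ⟨⟨g, g2⟩, g1⟩, fun _ h => h.1, fun _ h => h.2⟩
  refine Pool.Agent.H.MP_5e9a16.cm (σ := Set G × Set (H j)) (fun n s => (IsOpen s.2 ∧ s.2.Nonempty) ∧
    (∀ m, n = m + 1 → s.1 ∈ B m) ∧ ∃ D, IsOpen D ∧ s.2 ⊆ Function.eval j '' D ∧
      closure (Subtype.val ⁻¹' D) ⊆ interior s.1)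
    (fun s t => closure t.1 ⊆ interior s.1 ∧ ∀ g ∈ t.1, g.1 j ∈ s.2) Prod.snd
    ⟨(univ, univ), ⟨by simp, by simp, univ, isOpen_univ, by
      simp [(Function.surjective_eval j).range_eq], by simp⟩, rfl⟩ (fun _ _ h => h.1) ?_ fun s hs => ?_
  · rintro n ⟨A, W⟩ U ⟨-, -, D, d1, d2, d3⟩ u1 u2 u3
    obtain ⟨O, o1, o2, o3, o4⟩ := k d1 u1 u2 (u3.trans d2)
    obtain ⟨A', a1, a2⟩ := h2 n O o1 o2
    obtain ⟨g, hg⟩ := h1 n A' a1
    obtain ⟨C, c1, c2, c3⟩ := exists_mem_nhds_isClosed_subset (isOpen_interior.mem_nhds hg)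
    obtain ⟨E, e1, e2⟩ := (mem_nhds_subtype _ _ _).1 c1
    exact ⟨(A', Function.eval j '' interior E ∩ U), ⟨⟨(isOpenMap_eval j _ isOpen_interior).inter u1,
      _, ⟨g, mem_interior_iff_mem_nhds.2 e1, rfl⟩, o4 g (a2 (interior_subset hg))⟩,
      fun m e => by cases e; exact a1, _, isOpen_interior, inter_subset_left,
      (closure_minimal ((preimage_mono interior_subset).trans e2) c2).trans c3⟩,
      ⟨(closure_mono (a2.trans o3)).trans d3, fun g h => u3 (o4 g (a2 h))⟩, inter_subset_right⟩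
  · obtain ⟨g, hg⟩ := h3 (fun n => (s (n + 1)).1) (fun n => (hs _).1.2.1 n rfl) fun n => (hs _).2.1
    exact ⟨g.1 j, fun n => (hs n).2.2 g (mem_iInter.1 hg n)⟩

end Pool.Agent.Results.MP_5e9a16_gt.Yes
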